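import Pool.Agent.H18.GIT.Defs
import Pool.Graph.R_pool_sql_team_seeded_3997aac3.Q47.TB.Defs

/-!
# Toric bundles over complex manifolds, pairs and pluricanonical sections

Let `u i`, `i ∈ κ`, be the rays of a smooth complete fan in `ℤ^r` and `S` the set of its cones
(`IsSmoothFan u S`, see `Q47.TB.Defs`). The toric variety of the fan is the quotient of the set of the
`x ∈ ℂ^κ` for which `{i | x_i = 0}` is a cone by the group `G` of all `s ∈ (ℂ^*)^κ` with
`∏ s_i ^ (u_i)_k = 1` for all `k`. The homogeneous polynomials of the class of `∑ d_i D_i` in the Cox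
coordinates `x_i` are the sections of the line bundle `O(d)` on the toric variety, where `D_i` is the
divisor `x_i = 0`, and its canonical bundle is `O(-1, ..., -1)`. Log canonical pairs
`IsLogCanonical S m f` and nef line bundles `IsFibreNef u S d` on the toric variety are as in
`Q47.TB.Defs`.
-/

set_option autoImplicit false

namespace H18.TB

open MvPolynomial Q47.TB H18.GIT
open scoped Manifold ContDiff

universe u v

variable (n : ℕ) (B : Type u) [TopologicalSpace B] [ChartedSpace (Fin n → ℂ) B]

/-- A toric bundle `Y → B`: a holomorphic fibre bundle with the toric variety as fibre and the torus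
as structure group. It is given by an open covering of the complex manifold `B` by the domains of
charts and by nowhere vanishing holomorphic functions `t i j p a`, `a ∈ κ`, on the intersections, which
satisfy the cocycle condition up to the group `G`. The point `(p, x)` of the `j`-th product is
identified with the point `(p, t i j p * x)` of the `i`-th product. -/
structure ToricBundle {κ : Type*} [Fintype κ] {r : ℕ} (w : κ → Fin r → ℤ) (ι : Type v) where
  chart : ι → OpenPartialHomeomorph B (Fin n → ℂ)
  mem_atlas : ∀ i, chart i ∈ atlas (Fin n → ℂ) B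
  cover : ∀ p : B, ∃ i, p ∈ (chart i).source
  t : ι → ι → B → κ → ℂ
  holo : ∀ i j a, Holo (n := n) ((chart i).source ∩ (chart j).source) fun p => t i j p a
  ne_zero : ∀ i j, ∀ p ∈ (chart i).source ∩ (chart j).source, ∀ a, t i j p a ≠ 0
  cocycle : ∀ i j k, ∀ p ∈ (chart i).source ∩ (chart j).source ∩ (chart k).source,
    ∃ s : κ → ℂ, (∀ a, s a ≠ 0) ∧ (∀ l, ∏ a, s a ^ w a l = 1) ∧
      ∀ a, t i j p a * t j k p a = s a * t i k p a

variable {n} {B}

namespace ToricBundle

variable {κ : Type*} [Fintype κ] {r : ℕ} {w : κ → Fin r → ℤ} {ι : Type v}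
  (Y : ToricBundle n B w ι)

/-- The open set `U i` of the covering. -/
def U (i : ι) : Set B := (Y.chart i).source

/-- The polynomials `F i p` and the functions `e i j` define an effective divisor `m Δ` on `Y`, of
the class of `∑ d_a D_a` on the fibres: it is given on the `i`-th product by the polynomial `F i p` in
the Cox coordinates, homogeneous of this class, whose coefficients are holomorphic functions of `p`,
and `F i p (t i j p * x) = e i j p * F j p x`. -/
structure IsDivisor (d : κ → ℤ) (F : ι → B → MvPolynomial κ ℂ) (e : ι → ι → B → ℂ) : Prop where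
  holo : ∀ i α, Holo (n := n) (Y.U i) fun p => coeff α (F i p)
  deg : ∀ i, ∀ p ∈ Y.U i, ∀ α ∈ (F i p).support, LinEquiv w (fun a => (α a : ℤ)) d
  holo_e : ∀ i j, Holo (n := n) (Y.U i ∩ Y.U j) (e i j)
  e_ne_zero : ∀ i j, ∀ p ∈ Y.U i ∩ Y.U j, e i j p ≠ 0
  eq : ∀ i j, ∀ p ∈ Y.U i ∩ Y.U j, ∀ x : κ → ℂ,
    eval (fun a => Y.t i j p a * x a) (F i p) = e i j p * eval x (F j p)

/-- The polynomials `G i p` define a global section of the line bundle `O_Y(N m (K_{Y/B} + Δ))` on
`Y`, where `m Δ` is the divisor which is given by `F` and `e`: the relative `N m`-canonical forms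
`G i p (ω ^ m / F i p) ^ N` agree, where `ω` is the form in the Cox coordinates with values in the
canonical bundle of the toric variety, homogeneous of the class of `∑ D_a`. -/
structure IsRelativeSection (m : ℕ) (d : κ → ℤ) (e : ι → ι → B → ℂ) (N : ℕ)
    (G : ι → B → MvPolynomial κ ℂ) : Prop where
  holo : ∀ i α, Holo (n := n) (Y.U i) fun p => coeff α (G i p)
  deg : ∀ i, ∀ p ∈ Y.U i, ∀ α ∈ (G i p).support,
    LinEquiv w (fun a => (α a : ℤ)) fun a => N * (d a - m)
  eq : ∀ i j, ∀ p ∈ Y.U i ∩ Y.U j, ∀ x : κ → ℂ,
    eval (fun a => Y.t i j p a * x a) (G i p) * (∏ a, Y.t i j p a) ^ (N * m) =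
      e i j p ^ N * eval x (G j p)

/-- The polynomials `G i p` define a global section of the line bundle `O_Y(N m (K_Y + Δ))` on `Y`:
the `N m`-canonical forms `G i p ((dz_i ∧ ω) ^ m / F i p) ^ N` agree, where `dz_i` is the product of
the differentials of the coordinates `chart i` of `B`. -/
structure IsLogPluricanonicalSection (m : ℕ) (d : κ → ℤ) (e : ι → ι → B → ℂ) (N : ℕ)
    (G : ι → B → MvPolynomial κ ℂ) : Prop where
  holo : ∀ i α, Holo (n := n) (Y.U i) fun p => coeff α (G i p)
  deg : ∀ i, ∀ p ∈ Y.U i, ∀ α ∈ (G i p).support,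
    LinEquiv w (fun a => (α a : ℤ)) fun a => N * (d a - m)
  eq : ∀ i j, ∀ p ∈ Y.U i ∩ Y.U j, ∀ x : κ → ℂ,
    eval (fun a => Y.t i j p a * x a) (G i p) *
        (jac (Y.chart i) (Y.chart j) p * ∏ a, Y.t i j p a) ^ (N * m) =
      e i j p ^ N * eval x (G j p)

/-- The functions `s i` define a global section of the `N`-th power of the canonical bundle `K_B`:
the `N`-canonical forms `s i (dz_i) ^ N` agree. -/
structure IsPluricanonicalForm (N : ℕ) (s : ι → B → ℂ) : Prop where
  holo : ∀ i, Holo (n := n) (Y.U i) (s i)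
  eq : ∀ i j, ∀ p ∈ Y.U i ∩ Y.U j, s i p * jac (Y.chart i) (Y.chart j) p ^ N = s j p

end ToricBundle

end H18.TB
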