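import Mathlib

/-!
# A uniform approximation of points of the simplex
-/

set_option autoImplicit false

namespace H18.TB

open Filter Topology

theorem recur (k m : ℕ) (hm : 1 ≤ m) (l : Fin k → ℝ) (hl : l ∈ stdSimplex ℝ (Fin k)) :
    ∃ s : ℕ, 1 ≤ s ∧ ∃ n : Fin k → ℤ, (∀ i, (m : ℤ) ∣ n i) ∧ ∑ i, n i = s ∧
      (∀ i, l i = 0 → n i = 0) ∧ ∀ i, 0 < l i → (n i : ℝ) < (s + 1) * l i := by
  classical
  obtain ⟨hl0, hl1⟩ := hl
  have hm0 : (0 : ℝ) < m := by exact_mod_cast hm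
  obtain ⟨δ, hδ, hδ2⟩ : ∃ δ : ℝ, 0 < δ ∧ ∀ i, 0 < l i → δ ≤ l i := by
    by_cases h : (Finset.univ.filter fun i => 0 < l i).Nonempty
    · obtain ⟨i₀, hi₀, h1⟩ := Finset.exists_min_image _ l h
      exact ⟨l i₀, (Finset.mem_filter.1 hi₀).2, fun i hi => h1 i (Finset.mem_filter.2
        ⟨Finset.mem_univ _, hi⟩)⟩
    · exact ⟨1, one_pos, fun i hi => absurd ⟨i, Finset.mem_filter.2 ⟨Finset.mem_univ _, hi⟩⟩ h⟩
  obtain ⟨ε, hε, hε1, hε2⟩ : ∃ ε : ℝ, 0 < ε ∧ m * ε ≤ δ ∧ k * (m * ε) ≤ 1 / 2 := by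
    have hk0 : (0 : ℝ) < (k : ℝ) + 1 := by positivity
    have hmin : 0 < min δ (1 / 2) := lt_min hδ (by norm_num)
    refine ⟨min δ (1 / 2) / (m * (k + 1)), by positivity, ?_, ?_⟩
    · have h1 : (m : ℝ) * (min δ (1 / 2) / (m * (k + 1))) = min δ (1 / 2) / (k + 1) := by
        field_simp
      rw [h1]
      refine (div_le_self hmin.le ?_).trans (min_le_left _ _)
      have : (0 : ℝ) ≤ k := Nat.cast_nonneg k
      linarith
    · have h1 : (k : ℝ) * ((m : ℝ) * (min δ (1 / 2) / (m * (k + 1)))) =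
          min δ (1 / 2) * (k / (k + 1)) := by
        field_simp
      rw [h1]
      have h2 : (k : ℝ) / (k + 1) ≤ 1 := by
        rw [div_le_one hk0]
        linarith
      calc min δ (1 / 2) * (k / (k + 1)) ≤ min δ (1 / 2) * 1 :=
            mul_le_mul_of_nonneg_left h2 hmin.le
        _ ≤ 1 / 2 := by rw [mul_one]; exact min_le_right _ _
  let x : ℕ → Fin k → ℝ := fun j i => Int.fract (j * l i / m)
  have hx : ∀ j, x j ∈ Set.univ.pi fun _ : Fin k => Set.Icc (0 : ℝ) 1 := fun j i _ =>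
    ⟨Int.fract_nonneg _, (Int.fract_lt_one _).le⟩
  obtain ⟨a, -, φ, hφ, hlim⟩ := (isCompact_univ_pi fun _ : Fin k => isCompact_Icc
    (a := (0 : ℝ)) (b := 1)).tendsto_subseq hx
  obtain ⟨N, hN⟩ := Metric.cauchySeq_iff.1 hlim.cauchySeq ε hε
  have h1 := hN (N + 1) (Nat.le_succ N) N le_rfl
  have h2 : φ N < φ (N + 1) := hφ (Nat.lt_succ_self N)
  let n : Fin k → ℤ := fun i => m * (⌊((φ (N + 1) : ℕ) : ℝ) * l i / m⌋ - ⌊((φ N : ℕ) : ℝ) * l i / m⌋)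
  have h3 : ∀ i, |((φ (N + 1) - φ N : ℕ) : ℝ) * l i - n i| < m * ε := by
    intro i
    have h4 : dist (x (φ (N + 1)) i) (x (φ N) i) < ε := (dist_le_pi_dist _ _ i).trans_lt h1
    rw [Real.dist_eq] at h4
    have h5 : ((φ (N + 1) - φ N : ℕ) : ℝ) * l i - n i =
        m * (x (φ (N + 1)) i - x (φ N) i) := by
      simp only [x, n, Int.fract]
      push_cast [Nat.cast_sub h2.le]
      field_simp
      ring
    rw [h5, abs_mul, abs_of_pos hm0]
    exact mul_lt_mul_of_pos_left h4 hm0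
  refine ⟨φ (N + 1) - φ N, by omega, n, fun i => ⟨_, rfl⟩, ?_, fun i hi => ?_, fun i hi => ?_⟩
  · have h4 : |((φ (N + 1) - φ N : ℕ) : ℝ) - ∑ i, (n i : ℝ)| ≤ 1 / 2 := by
      have h5 : ((φ (N + 1) - φ N : ℕ) : ℝ) - ∑ i, (n i : ℝ) =
          ∑ i, (((φ (N + 1) - φ N : ℕ) : ℝ) * l i - n i) := by
        rw [Finset.sum_sub_distrib, ← Finset.mul_sum, hl1, mul_one]
      rw [h5]
      refine (Finset.abs_sum_le_sum_abs _ _).trans ?_
      refine (Finset.sum_le_sum fun i _ => (h3 i).le).trans ?_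
      rw [Finset.sum_const, Finset.card_univ, Fintype.card_fin, nsmul_eq_mul]
      exact hε2
    have h6 : |((φ (N + 1) - φ N : ℕ) : ℤ) - ∑ i, n i| < 1 := by
      have h7 : ((|((φ (N + 1) - φ N : ℕ) : ℤ) - ∑ i, n i| : ℤ) : ℝ) < 1 := by
        push_cast [Nat.cast_sub h2.le] at h4 ⊢
        linarith
      exact_mod_cast h7
    have h8 := Int.abs_lt_one_iff.1 h6
    omega
  · simp [n, hi]
  · have h4 := (abs_lt.1 (h3 i)).1
    have h5 := hδ2 i hi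
    nlinarith

theorem approx (k m : ℕ) (hm : 1 ≤ m) : ∃ C : ℕ, 1 ≤ C ∧ ∀ l : Fin k → ℝ, (∀ i, 0 < l i) →
    ∑ i, l i = 1 → ∃ s : ℕ, 1 ≤ s ∧ s ≤ C ∧ ∃ n : Fin k → ℤ, (∀ i, (m : ℤ) ∣ n i) ∧ ∑ i, n i = s ∧
      ∀ i, (n i : ℝ) < (s + 1) * l i := by
  classical
  choose! s hs n hn1 hn2 hn3 hn4 using fun l => recur k m hm l
  obtain ⟨t, ht1, ht2⟩ := (isCompact_stdSimplex ℝ (Fin k)).elim_nhds_subcover
    (fun l => {μ : Fin k → ℝ | ∀ i, 0 < l i → (n l i : ℝ) < (s l + 1) * μ i}) (fun l hl => by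
      have h1 : IsOpen {μ : Fin k → ℝ | ∀ i, 0 < l i → (n l i : ℝ) < (s l + 1) * μ i} := by
        simp only [Set.ofPred_forall]
        refine isOpen_iInter_of_finite fun i => isOpen_iInter_of_finite fun _ => ?_
        exact isOpen_lt continuous_const (continuous_const.mul (continuous_apply i))
      exact h1.mem_nhds fun i hi => hn4 l hl i hi)
  refine ⟨∑ l ∈ t, s l + 1, by omega, fun l hl hl1 => ?_⟩
  have h1 := ht2 (show l ∈ stdSimplex ℝ (Fin k) from ⟨fun i => (hl i).le, hl1⟩)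
  simp only [Set.mem_iUnion] at h1
  obtain ⟨μ, hμ, h2⟩ := h1
  refine ⟨s μ, hs μ (ht1 μ hμ), ?_, n μ, hn1 μ (ht1 μ hμ), hn2 μ (ht1 μ hμ), fun i => ?_⟩
  · exact (Finset.single_le_sum (f := s) (fun _ _ => Nat.zero_le _) hμ).trans (Nat.le_succ _)
  · rcases (ht1 μ hμ).1 i |>.eq_or_lt with h3 | h3
    · rw [hn3 μ (ht1 μ hμ) i h3.symm]
      have := hl i
      push_cast
      positivity
    · exact h2 i h3

end H18.TB
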