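import Pool.Agent.H18.TB.Defs
import Pool.Agent.H18.GIT.Global
import Pool.Graph.R_pool_sql_team_seeded_3997aac3.Q47.TB.Snc

/-!
# Families of log canonical pairs on toric varieties: global generation
-/

set_option autoImplicit false

namespace H18.TB

open MvPolynomial Q47.TB H18.GIT
open scoped Manifold ContDiff

universe u v

variable {κ : Type*} [Fintype κ] {r : ℕ} {w : κ → Fin r → ℤ} {S : Set (Set κ)}

/-- The exponents: for every set `T` of monomials of the class `d` which satisfies the weight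
inequalities and every cone `σ` there is a combination of the elements of `T` of the form
`N (m + β)`, `β = 0` on `σ`, with an `N` which does not depend on `T` and `σ`. -/
theorem uniform (hS : IsSmoothFan w S) {m : ℕ} {d : κ → ℤ}
    (hnef : IsFibreNef w S fun a => d a - m) :
    ∃ N : ℕ, 1 ≤ N ∧ ∀ T : Finset (κ →₀ ℕ), (∀ α ∈ T, LinEquiv w (fun i => (α i : ℤ)) d) →
      (∀ a : κ → ℕ, {i | a i ≠ 0} ∈ S → ∃ α ∈ T, ∑ i, a i * α i ≤ m * ∑ i, a i) →
      ∀ σ ∈ S, ∃ (β : κ → ℕ) (b : (κ →₀ ℕ) → ℕ), (∀ i ∈ σ, β i = 0) ∧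
        LinEquiv w (fun i => (β i : ℤ)) (fun i => d i - m) ∧ ∑ α ∈ T, b α = N ∧
        ∀ i, ∑ α ∈ T, b α * α i = N * (m + β i) := by
  classical
  have hfin := finite_class hS d
  let P : Finset (Finset (κ →₀ ℕ)) := hfin.toFinset.powerset
  have key : ∀ (T : Finset (κ →₀ ℕ)) (σ : Set κ), ∃ N : ℕ, 1 ≤ N ∧
      ((∀ α ∈ T, LinEquiv w (fun i => (α i : ℤ)) d) →
      (∀ a : κ → ℕ, {i | a i ≠ 0} ∈ S → ∃ α ∈ T, ∑ i, a i * α i ≤ m * ∑ i, a i) → σ ∈ S →
      ∃ (β : κ → ℕ) (b : (κ →₀ ℕ) → ℕ), (∀ i ∈ σ, β i = 0) ∧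
        LinEquiv w (fun i => (β i : ℤ)) (fun i => d i - m) ∧ ∑ α ∈ T, b α = N ∧
        ∀ i, ∑ α ∈ T, b α * α i = N * (m + β i)) := by
    intro T σ
    by_cases h : (∀ α ∈ T, LinEquiv w (fun i => (α i : ℤ)) d) ∧
      (∀ a : κ → ℕ, {i | a i ≠ 0} ∈ S → ∃ α ∈ T, ∑ i, a i * α i ≤ m * ∑ i, a i) ∧ σ ∈ S
    · obtain ⟨h1, h2, h3⟩ := h
      obtain ⟨β, hβσ, hβ⟩ := hnef σ h3
      obtain ⟨b, hb1, hb2⟩ := exists_comb hS T h1 hβ h2
      exact ⟨∑ α ∈ T, b α, hb1, fun _ _ _ => ⟨β, b, hβσ, hβ, rfl, hb2⟩⟩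
    · exact ⟨1, le_rfl, fun h1 h2 h3 => absurd ⟨h1, h2, h3⟩ h⟩
  choose N hN1 hN2 using key
  refine ⟨∏ T ∈ P, ∏ σ : Set κ, N T σ,
    Nat.one_le_iff_ne_zero.2 (Finset.prod_ne_zero_iff.2 fun T _ => Finset.prod_ne_zero_iff.2
      fun σ _ => (Nat.one_le_iff_ne_zero.1 (hN1 T σ))), fun T hT hw σ hσ => ?_⟩
  have hTP : T ∈ P := Finset.mem_powerset.2 fun α hα => hfin.mem_toFinset.2 (hT α hα)
  have hdvd : N T σ ∣ ∏ T ∈ P, ∏ σ : Set κ, N T σ :=
    (Finset.dvd_prod_of_mem _ (Finset.mem_univ σ)).trans (Finset.dvd_prod_of_mem _ hTP)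
  obtain ⟨K, hK⟩ := hdvd
  obtain ⟨β, b, h1, h2, h3, h4⟩ := hN2 T σ hT hw hσ
  refine ⟨β, fun α => K * b α, h1, h2, ?_, fun i => ?_⟩
  · rw [← Finset.mul_sum, h3, hK, mul_comm]
  · rw [hK, mul_comm (N T σ) K, mul_assoc, ← h4 i, Finset.mul_sum]
    exact Finset.sum_congr rfl fun α _ => by ring

variable {n : ℕ} {B : Type u} [TopologicalSpace B] [ChartedSpace (Fin n → ℂ) B] {ι : Type v}
  (Y : ToricBundle n B w ι)

/-- The section given by the coefficients. -/
theorem section_of_comb {m : ℕ} {d : κ → ℤ} {F : ι → B → MvPolynomial κ ℂ} {e : ι → ι → B → ℂ}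
    (hF : Y.IsDivisor d F e) (T : Finset (κ →₀ ℕ)) (b : (κ →₀ ℕ) → ℕ) {N : ℕ} {β : κ → ℕ}
    (hβ : LinEquiv w (fun i => (β i : ℤ)) (fun i => d i - m)) (hb : ∑ α ∈ T, b α = N)
    (hb2 : ∀ i, ∑ α ∈ T, b α * α i = N * (m + β i)) :
    Y.IsRelativeSection m d e N fun i p =>
      monomial (Finsupp.equivFunOnFinite.symm fun a => N * β a)
        (∏ α ∈ T, coeff α (F i p) ^ b α) := by
  classical
  refine ⟨fun i α => ?_, fun i p hp α hα => ?_, fun i j p hp x => ?_⟩
  · have h0 : Holo (n := n) (Y.U i) fun p => ∏ α ∈ T, coeff α (F i p) ^ b α :=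
      contMDiffOn_finsetProd fun α _ => (hF.holo i α).pow _
    simp only [coeff_monomial]
    split_ifs with h
    · exact h0
    · exact contMDiffOn_const
  · rw [mem_support_iff, coeff_monomial] at hα
    have h1 : (Finsupp.equivFunOnFinite.symm fun a => N * β a) = α := by
      by_contra hne
      rw [if_neg hne] at hα
      exact hα rfl
    obtain ⟨q, hq⟩ := hβ
    refine ⟨fun k => N * q k, fun a => ?_⟩
    rw [← h1]
    simp only [Finsupp.equivFunOnFinite_symm_apply_apply]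
    have h3 : (β a : ℤ) = d a - m + ∑ k, q k * w a k := hq a
    push_cast
    rw [h3, mul_add, Finset.mul_sum]
    congr 1
    exact Finset.sum_congr rfl fun k _ => by ring
  · have hc : ∀ α ∈ T, coeff α (F i p) * (∏ a, Y.t i j p a ^ α a) =
        e i j p * coeff α (F j p) := by
      intro α _
      have h1 := coeff_of_eval (t := Y.t i j p) (p := F i p) (q := F j p) (a := 1) (b := e i j p)
        (fun x => by rw [mul_one]; exact hF.eq i j p hp x) α
      rwa [mul_one] at h1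
    have hprod : (∏ α ∈ T, coeff α (F i p) ^ b α) *
        ∏ a, Y.t i j p a ^ (N * (m + β a)) =
        e i j p ^ N * ∏ α ∈ T, coeff α (F j p) ^ b α := by
      have h2 : ∏ a, Y.t i j p a ^ (N * (m + β a)) =
          ∏ α ∈ T, (∏ a, Y.t i j p a ^ α a) ^ b α := by
        simp_rw [← Finset.prod_pow]
        rw [Finset.prod_comm]
        refine Finset.prod_congr rfl fun a _ => ?_
        rw [← hb2 a, ← Finset.prod_pow_eq_pow_sum]
        exact Finset.prod_congr rfl fun α _ => by rw [← pow_mul, mul_comm]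
      rw [h2, ← Finset.prod_mul_distrib, ← hb, ← Finset.prod_pow_eq_pow_sum,
        ← Finset.prod_mul_distrib]
      exact Finset.prod_congr rfl fun α hα => by rw [← mul_pow, hc α hα, mul_pow]
    rw [eval_monomial, eval_monomial, Finsupp.prod_fintype _ _ fun i => pow_zero _,
      Finsupp.prod_fintype _ _ fun i => pow_zero _]
    simp only [Finsupp.equivFunOnFinite_symm_apply_apply, mul_pow, Finset.prod_mul_distrib]
    have h3 : (∏ a, Y.t i j p a ^ (N * β a)) * (∏ a, Y.t i j p a) ^ (N * m) =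
        ∏ a, Y.t i j p a ^ (N * (m + β a)) := by
      rw [← Finset.prod_pow, ← Finset.prod_mul_distrib]
      exact Finset.prod_congr rfl fun a _ => by rw [← pow_add]; congr 1; ring
    calc (∏ α ∈ T, coeff α (F i p) ^ b α) * ((∏ a, Y.t i j p a ^ (N * β a)) *
          ∏ a, x a ^ (N * β a)) * (∏ a, Y.t i j p a) ^ (N * m)
        = ((∏ α ∈ T, coeff α (F i p) ^ b α) * ((∏ a, Y.t i j p a ^ (N * β a)) *
          (∏ a, Y.t i j p a) ^ (N * m))) * ∏ a, x a ^ (N * β a) := by ring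
      _ = e i j p ^ N * ((∏ α ∈ T, coeff α (F j p) ^ b α) * ∏ a, x a ^ (N * β a)) := by
          rw [h3, hprod]; ring

/-- Global generation of `N m (K_{Y/B} + Δ)`. -/
theorem relative (hS : IsSmoothFan w S) {m : ℕ} (hm : 1 ≤ m) {d : κ → ℤ}
    (hnef : IsFibreNef w S fun a => d a - m) :
    ∃ N : ℕ, 1 ≤ N ∧ ∀ (n : ℕ) (B : Type u) [TopologicalSpace B] [ChartedSpace (Fin n → ℂ) B]
      (ι : Type v) (Y : ToricBundle n B w ι) (F : ι → B → MvPolynomial κ ℂ)
      (e : ι → ι → B → ℂ), Y.IsDivisor d F e → ∀ i, ∀ p ∈ Y.U i, IsLogCanonical S m (F i p) →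
      ∀ x : κ → ℂ, {a | x a = 0} ∈ S →
        ∃ G, Y.IsRelativeSection m d e N G ∧ eval x (G i p) ≠ 0 := by
  classical
  obtain ⟨N, hN, h⟩ := uniform hS hnef
  refine ⟨N, hN, fun n B _ _ ι Y F e hF i p hp hlc x hx => ?_⟩
  obtain ⟨β, b, h1, h2, h3, h4⟩ := h (F i p).support (hF.deg i p hp)
    (fun a ha => weights_of_lc hm hlc a ha) _ hx
  refine ⟨_, section_of_comb Y hF (F i p).support b h2 h3 h4, ?_⟩
  rw [eval_monomial, Finsupp.prod_fintype _ _ fun i => pow_zero _]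
  refine mul_ne_zero (Finset.prod_ne_zero_iff.2 fun α hα => pow_ne_zero _ (mem_support_iff.1 hα))
    (Finset.prod_ne_zero_iff.2 fun a _ => ?_)
  simp only [Finsupp.equivFunOnFinite_symm_apply_apply]
  by_cases hxa : x a = 0
  · rw [h1 a hxa, mul_zero, pow_zero]
    exact one_ne_zero
  · exact pow_ne_zero _ hxa

/-- The class of a power. -/
theorem deg_pow {G : MvPolynomial κ ℂ} {d : κ → ℤ}
    (h : ∀ α ∈ G.support, LinEquiv w (fun a => (α a : ℤ)) d) (k : ℕ) :
    ∀ α ∈ (G ^ k).support, LinEquiv w (fun a => (α a : ℤ)) fun a => k * d a := by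
  classical
  induction k with
  | zero =>
    intro α hα
    rw [pow_zero, mem_support_iff, coeff_one] at hα
    have h0 : (0 : κ →₀ ℕ) = α := by
      by_contra hne
      exact hα (if_neg hne)
    refine ⟨0, fun a => ?_⟩
    simp [← h0]
  | succ k ih =>
    intro α hα
    rw [pow_succ] at hα
    obtain ⟨x, hx, y, hy, rfl⟩ := Finset.mem_add.1 (support_mul _ _ hα)
    obtain ⟨q, hq⟩ := ih x hx
    obtain ⟨q', hq'⟩ := h y hy
    refine ⟨fun l => q l + q' l, fun a => ?_⟩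
    have h1 : (x a : ℤ) = k * d a + ∑ l, q l * w a l := hq a
    have h2 : (y a : ℤ) = d a + ∑ l, q' l * w a l := hq' a
    simp only [Finsupp.add_apply, add_mul, Finset.sum_add_distrib]
    push_cast
    rw [h1, h2]
    ring

/-- From the relative to the absolute log canonical bundle. -/
theorem absolute {m : ℕ} {d : κ → ℤ} {N : ℕ} {n : ℕ} {B : Type u}
    [TopologicalSpace B] [ChartedSpace (Fin n → ℂ) B] {ι : Type v} (Y : ToricBundle n B w ι)
    {e : ι → ι → B → ℂ} {N' : ℕ} {s : ι → B → ℂ} (hs : Y.IsPluricanonicalForm N' s)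
    {G : ι → B → MvPolynomial κ ℂ} (hG : Y.IsRelativeSection m d e N G) :
    Y.IsLogPluricanonicalSection m d e (N * N') fun i p => C (s i p ^ (m * N)) * G i p ^ N' where
  holo := fun i α => by
    simp only [coeff_C_mul]
    exact ((hs.holo i).pow _).mul (Holo.coeff_pow (hG.holo i) N' α)
  deg := fun i p hp α hα => by
    rw [mem_support_iff, coeff_C_mul] at hα
    obtain ⟨q, hq⟩ := deg_pow (hG.deg i p hp) N' α (mem_support_iff.2 (right_ne_zero_of_mul hα))
    refine ⟨q, fun a => ?_⟩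
    have h1 : (α a : ℤ) = N' * (N * (d a - m)) + ∑ l, q l * w a l := hq a
    simp only [h1]
    push_cast
    ring
  eq := fun i j p hp x => by
    have h1 := hG.eq i j p hp x
    have h2 := hs.eq i j p hp
    simp only [map_mul, map_pow, eval_C]
    calc s i p ^ (m * N) * eval (fun a => Y.t i j p a * x a) (G i p) ^ N' *
          (jac (Y.chart i) (Y.chart j) p * ∏ a, Y.t i j p a) ^ (N * N' * m)
        = (s i p * jac (Y.chart i) (Y.chart j) p ^ N') ^ (m * N) *
          (eval (fun a => Y.t i j p a * x a) (G i p) * (∏ a, Y.t i j p a) ^ (N * m)) ^ N' := by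
            rw [mul_pow, mul_pow, mul_pow]
            ring
      _ = e i j p ^ (N * N') * (s j p ^ (m * N) * eval x (G j p) ^ N') := by
            rw [h1, h2]
            ring

end H18.TB
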