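import Pool.Agent.H18.TB.Simp

/-!
# Families of log canonical pairs on `ℚ`-factorial toric varieties: global generation
-/

set_option autoImplicit false

namespace H18.TB

open MvPolynomial Q47.TB H18.GIT
open scoped Manifold ContDiff

universe u v

variable {κ : Type*} [Fintype κ] {r : ℕ} {w : κ → Fin r → ℤ} {S : Set (Set κ)}

/-- The class of `∑ d_i D_i` on the toric variety is nef, that is, semiample: for each cone `σ` the
class of a multiple `k ∑ d_i D_i`, `k ≥ 1`, contains an effective divisor `∑ β_i D_i` with `β_i = 0` for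
`i ∈ σ`. -/
def IsFibreQNef (w : κ → Fin r → ℤ) (S : Set (Set κ)) (d : κ → ℤ) : Prop :=
  ∀ σ ∈ S, ∃ k : ℕ, 1 ≤ k ∧ ∃ β : κ → ℕ, (∀ i ∈ σ, β i = 0) ∧
    LinEquiv w (fun i => (β i : ℤ)) fun i => k * d i

/-- There are finitely many effective divisors in a class. -/
theorem IsSimplicialFan.finite_class (hS : IsSimplicialFan w S) (d : κ → ℤ) :
    {α : κ →₀ ℕ | LinEquiv w (fun i => (α i : ℤ)) d}.Finite := by
  classical
  choose M a hM _ ha using fun v : Fin r → ℤ => hS.nat_rep v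
  let B : (Fin r → ℤ) → ℤ := fun v => |∑ i, (a v i : ℤ) * d i|
  have hb : ∀ (m v : Fin r → ℤ), (∀ i, 0 ≤ d i + ∑ k, m k * w i k) →
      -B v ≤ ∑ k, m k * v k := by
    intro m v hm
    have h1 : (M v : ℤ) * ∑ k, m k * v k = ∑ i, (a v i : ℤ) * ∑ k, m k * w i k := by
      simp_rw [Finset.mul_sum]
      rw [Finset.sum_comm]
      refine Finset.sum_congr rfl fun k _ => ?_
      have h4 : (M v : ℤ) * (m k * v k) = m k * (M v * v k) := by ring
      rw [h4, ← ha v k, Finset.mul_sum]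
      exact Finset.sum_congr rfl fun i _ => by ring
    have h2 : 0 ≤ ∑ i, (a v i : ℤ) * (d i + ∑ k, m k * w i k) :=
      Finset.sum_nonneg fun i _ => mul_nonneg (Int.natCast_nonneg _) (hm i)
    simp only [mul_add, Finset.sum_add_distrib] at h2
    rw [← h1] at h2
    have h3 : ∑ i, (a v i : ℤ) * d i ≤ B v := le_abs_self _
    have h5 : 0 ≤ B v := abs_nonneg _
    have h6 : (1 : ℤ) ≤ M v := by exact_mod_cast hM v
    by_contra hcon
    rw [not_le] at hcon
    nlinarith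
  let lo : Fin r → ℤ := fun k => -B (Pi.single k 1)
  let hi : Fin r → ℤ := fun k => B (fun l => -(Pi.single k 1 : Fin r → ℤ) l)
  have hfin : (Set.Icc lo hi).Finite := Set.finite_Icc lo hi
  refine (hfin.image fun m => Finsupp.equivFunOnFinite.symm fun i =>
    (d i + ∑ k, m k * w i k).toNat).subset ?_
  rintro α ⟨m, hm⟩
  have hm' : ∀ i, (α i : ℤ) = d i + ∑ k, m k * w i k := hm
  have hpos : ∀ i, 0 ≤ d i + ∑ k, m k * w i k := fun i => by
    rw [← hm' i]
    exact Int.natCast_nonneg _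
  refine ⟨m, ⟨fun k => ?_, fun k => ?_⟩, ?_⟩
  · have := hb m (Pi.single k 1) hpos
    simpa [Pi.single_apply] using this
  · have := hb m (fun l => -(Pi.single k 1 : Fin r → ℤ) l) hpos
    simp only [mul_neg, Finset.sum_neg_distrib] at this
    have h2 : ∑ l, m l * (Pi.single k 1 : Fin r → ℤ) l = m k := by simp [Pi.single_apply]
    rw [h2] at this
    simp only [hi]
    linarith
  · ext i
    rw [Finsupp.equivFunOnFinite_symm_apply_apply, ← hm' i, Int.toNat_natCast]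

/-- The weight inequalities put the adjoint exponents into the Newton polytope. -/
theorem IsSimplicialFan.exists_comb (hS : IsSimplicialFan w S) (T : Finset (κ →₀ ℕ)) {d : κ → ℤ}
    (hT : ∀ α ∈ T, LinEquiv w (fun i => (α i : ℤ)) d) {m k : ℕ} (hk : 1 ≤ k) {β : κ → ℕ}
    (hβ : LinEquiv w (fun i => (β i : ℤ)) fun i => k * (d i - m))
    (hw : ∀ a : κ → ℕ, {i | a i ≠ 0} ∈ S → ∃ α ∈ T, ∑ i, a i * α i ≤ m * ∑ i, a i) :
    ∃ (c : ℕ) (b : (κ →₀ ℕ) → ℕ), 1 ≤ ∑ α ∈ T, b α ∧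
      ∀ i, ∑ α ∈ T, b α * α i = (∑ α ∈ T, b α) * m + c * β i := by
  classical
  have hT' : ∀ α : T, ∃ p : Fin r → ℤ, ∀ i, ((α : κ →₀ ℕ) i : ℤ) = d i + ∑ l, p l * w i l :=
    fun α => hT α α.2
  choose mα hmα using hT'
  obtain ⟨mβ, hmβ'⟩ := hβ
  have hmβ : ∀ i, (β i : ℤ) = k * (d i - m) + ∑ l, mβ l * w i l := hmβ'
  let q : T → Fin r → ℤ := fun α l => k * mα α l - mβ l
  have hq : ∀ (α : T) (i : κ), (k : ℤ) * (((α : κ →₀ ℕ) i : ℤ) - m) - β i = ∑ l, q α l * w i l := by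
    intro α i
    simp only [q, sub_mul, Finset.sum_sub_distrib]
    rw [hmα α i, hmβ i]
    simp only [mul_assoc]
    rw [← Finset.mul_sum]
    ring
  have hTne : T.Nonempty := by
    obtain ⟨α, hα, -⟩ := hw (fun _ => 0) (by simpa using hS.empty_mem)
    exact ⟨α, hα⟩
  have : Nonempty T := ⟨⟨_, hTne.choose_spec⟩⟩
  have hhull : (0 : Fin r → ℝ) ∈ convexHull ℝ (Set.range fun j => fun k => (q j k : ℝ)) := by
    by_contra hcon
    obtain ⟨v, hv⟩ := sep_of_not_hull q hcon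
    obtain ⟨M, a, hM, haS, ha⟩ := hS.nat_rep v
    obtain ⟨α, hα, hle⟩ := hw a haS
    have h1 := hv ⟨α, hα⟩
    have h2 : (M : ℤ) * ∑ l, q ⟨α, hα⟩ l * v l =
        ∑ i, (a i : ℤ) * ((k : ℤ) * ((α i : ℤ) - m) - β i) := by
      have h3 : ∀ i, (k : ℤ) * ((α i : ℤ) - m) - β i = ∑ l, q ⟨α, hα⟩ l * w i l := fun i =>
        hq ⟨α, hα⟩ i
      simp_rw [h3, Finset.mul_sum]
      rw [Finset.sum_comm]
      refine Finset.sum_congr rfl fun l _ => ?_
      have h4 : (M : ℤ) * (q ⟨α, hα⟩ l * v l) = q ⟨α, hα⟩ l * (M * v l) := by ring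
      rw [h4, ← ha l, Finset.mul_sum]
      exact Finset.sum_congr rfl fun i _ => by ring
    have h3 : ∑ i, (a i : ℤ) * ((k : ℤ) * ((α i : ℤ) - m) - β i) =
        k * (((∑ i, a i * α i : ℕ) : ℤ) - ((m * ∑ i, a i : ℕ) : ℤ)) -
          ((∑ i, a i * β i : ℕ) : ℤ) := by
      push_cast
      rw [Finset.mul_sum, ← Finset.sum_sub_distrib, Finset.mul_sum, ← Finset.sum_sub_distrib]
      exact Finset.sum_congr rfl fun i _ => by ring
    have h4 : ((∑ i, a i * α i : ℕ) : ℤ) ≤ ((m * ∑ i, a i : ℕ) : ℤ) := by exact_mod_cast hle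
    have h5 : (0 : ℤ) ≤ ((∑ i, a i * β i : ℕ) : ℤ) := Int.natCast_nonneg _
    have h6 : (1 : ℤ) ≤ M := by exact_mod_cast hM
    have h7 : (0 : ℤ) < M * ∑ l, q ⟨α, hα⟩ l * v l := mul_pos (by linarith) h1
    rw [h2, h3] at h7
    have h8 : (k : ℤ) * (((∑ i, a i * α i : ℕ) : ℤ) - ((m * ∑ i, a i : ℕ) : ℤ)) ≤ 0 :=
      mul_nonpos_of_nonneg_of_nonpos (Int.natCast_nonneg _) (by linarith)
    linarith
  obtain ⟨r', g, b, hb1, hb⟩ := int_of_hull q hhull
  have key : ∀ F : (κ →₀ ℕ) → ℕ,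
      ∑ α ∈ T, (k * ∑ j, if (g j : κ →₀ ℕ) = α then b j else 0) * F α =
        k * ∑ j, b j * F (g j) := by
    intro F
    simp only [mul_assoc, Finset.sum_mul, ite_mul, zero_mul]
    rw [← Finset.mul_sum, Finset.sum_comm]
    congr 1
    refine Finset.sum_congr rfl fun j _ => ?_
    rw [Finset.sum_ite_eq, if_pos (g j).2]
  have key1 : ∑ α ∈ T, (k * ∑ j, if (g j : κ →₀ ℕ) = α then b j else 0) = k * ∑ j, b j := by
    have := key fun _ => 1
    simpa using this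
  refine ⟨∑ j, b j, fun α => k * ∑ j, if (g j : κ →₀ ℕ) = α then b j else 0, ?_, fun i => ?_⟩
  · rw [key1]
    exact Nat.mul_pos hk hb1
  · rw [key fun α => α i, key1]
    have h1 : ∑ j, (b j : ℤ) * ((k : ℤ) * (((g j : κ →₀ ℕ) i : ℤ) - m) - β i) = 0 := by
      calc ∑ j, (b j : ℤ) * ((k : ℤ) * (((g j : κ →₀ ℕ) i : ℤ) - m) - β i)
          = ∑ j, (b j : ℤ) * ∑ l, q (g j) l * w i l :=
            Finset.sum_congr rfl fun j _ => by rw [hq]
        _ = ∑ l, (∑ j, (b j : ℤ) * q (g j) l) * w i l := by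
            simp only [Finset.mul_sum, Finset.sum_mul]
            rw [Finset.sum_comm]
            exact Finset.sum_congr rfl fun _ _ => Finset.sum_congr rfl fun _ _ => by ring
        _ = 0 := by simp [hb]
    have h2 : ((k * ∑ j, b j * (g j : κ →₀ ℕ) i : ℕ) : ℤ) =
        ((k * (∑ j, b j) * m + (∑ j, b j) * β i : ℕ) : ℤ) := by
      push_cast
      rw [Finset.mul_sum, mul_assoc, Finset.sum_mul, Finset.mul_sum, Finset.sum_mul,
        ← Finset.sum_add_distrib, ← sub_eq_zero, ← Finset.sum_sub_distrib, ← h1]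
      exact Finset.sum_congr rfl fun j _ => by ring
    exact_mod_cast h2

/-- The exponents: for every set `T` of monomials of the class `d` which satisfies the weight
inequalities and every cone `σ` there is a combination of the elements of `T` of the form
`N m + γ`, `γ = 0` on `σ`, with an `N` which does not depend on `T` and `σ`. -/
theorem IsSimplicialFan.uniform (hS : IsSimplicialFan w S) {m : ℕ} {d : κ → ℤ}
    (hnef : IsFibreQNef w S fun a => d a - m) :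
    ∃ N : ℕ, 1 ≤ N ∧ ∀ T : Finset (κ →₀ ℕ), (∀ α ∈ T, LinEquiv w (fun i => (α i : ℤ)) d) →
      (∀ a : κ → ℕ, {i | a i ≠ 0} ∈ S → ∃ α ∈ T, ∑ i, a i * α i ≤ m * ∑ i, a i) →
      ∀ σ ∈ S, ∃ (γ : κ → ℕ) (b : (κ →₀ ℕ) → ℕ), (∀ i ∈ σ, γ i = 0) ∧ ∑ α ∈ T, b α = N ∧
        ∀ i, ∑ α ∈ T, b α * α i = N * m + γ i := by
  classical
  have hfin := hS.finite_class d
  let P : Finset (Finset (κ →₀ ℕ)) := hfin.toFinset.powerset
  have key : ∀ (T : Finset (κ →₀ ℕ)) (σ : Set κ), ∃ N : ℕ, 1 ≤ N ∧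
      ((∀ α ∈ T, LinEquiv w (fun i => (α i : ℤ)) d) →
      (∀ a : κ → ℕ, {i | a i ≠ 0} ∈ S → ∃ α ∈ T, ∑ i, a i * α i ≤ m * ∑ i, a i) → σ ∈ S →
      ∃ (γ : κ → ℕ) (b : (κ →₀ ℕ) → ℕ), (∀ i ∈ σ, γ i = 0) ∧ ∑ α ∈ T, b α = N ∧
        ∀ i, ∑ α ∈ T, b α * α i = N * m + γ i) := by
    intro T σ
    by_cases h : (∀ α ∈ T, LinEquiv w (fun i => (α i : ℤ)) d) ∧
      (∀ a : κ → ℕ, {i | a i ≠ 0} ∈ S → ∃ α ∈ T, ∑ i, a i * α i ≤ m * ∑ i, a i) ∧ σ ∈ S
    · obtain ⟨h1, h2, h3⟩ := h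
      obtain ⟨k, hk, β, hβσ, hβ⟩ := hnef σ h3
      obtain ⟨c, b, hb1, hb2⟩ := hS.exists_comb T h1 hk hβ h2
      exact ⟨∑ α ∈ T, b α, hb1, fun _ _ _ => ⟨fun i => c * β i, b, fun i hi => by
        change c * β i = 0
        rw [hβσ i hi, mul_zero], rfl, hb2⟩⟩
    · exact ⟨1, le_rfl, fun h1 h2 h3 => absurd ⟨h1, h2, h3⟩ h⟩
  choose N hN1 hN2 using key
  refine ⟨∏ T ∈ P, ∏ σ : Set κ, N T σ,
    Nat.one_le_iff_ne_zero.2 (Finset.prod_ne_zero_iff.2 fun T _ => Finset.prod_ne_zero_iff.2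
      fun σ _ => (Nat.one_le_iff_ne_zero.1 (hN1 T σ))), fun T hT hw σ hσ => ?_⟩
  have hTP : T ∈ P := Finset.mem_powerset.2 fun α hα => hfin.mem_toFinset.2 (hT α hα)
  have hdvd : N T σ ∣ ∏ T ∈ P, ∏ σ : Set κ, N T σ :=
    (Finset.dvd_prod_of_mem _ (Finset.mem_univ σ)).trans (Finset.dvd_prod_of_mem _ hTP)
  obtain ⟨K, hK⟩ := hdvd
  obtain ⟨γ, b, h1, h3, h4⟩ := hN2 T σ hT hw hσ
  refine ⟨fun i => K * γ i, fun α => K * b α, fun i hi => by
    change K * γ i = 0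
    rw [h1 i hi, mul_zero], ?_, fun i => ?_⟩
  · rw [← Finset.mul_sum, h3, hK, mul_comm]
  · have h5 : ∑ α ∈ T, K * b α * α i = K * ∑ α ∈ T, b α * α i := by
      rw [Finset.mul_sum]
      exact Finset.sum_congr rfl fun α _ => by ring
    rw [hK, h5, h4 i]
    ring

variable {n : ℕ} {B : Type u} [TopologicalSpace B] [ChartedSpace (Fin n → ℂ) B] {ι : Type v}
  (Y : ToricBundle n B w ι)

/-- The section given by the coefficients. -/
theorem section_of_comb' {m : ℕ} {d : κ → ℤ} {F : ι → B → MvPolynomial κ ℂ} {e : ι → ι → B → ℂ}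
    (hF : Y.IsDivisor d F e) (T : Finset (κ →₀ ℕ))
    (hT : ∀ α ∈ T, LinEquiv w (fun i => (α i : ℤ)) d) (b : (κ →₀ ℕ) → ℕ) {N : ℕ} {γ : κ → ℕ}
    (hb : ∑ α ∈ T, b α = N) (hb2 : ∀ i, ∑ α ∈ T, b α * α i = N * m + γ i) :
    Y.IsRelativeSection m d e N fun i p =>
      monomial (Finsupp.equivFunOnFinite.symm γ) (∏ α ∈ T, coeff α (F i p) ^ b α) := by
  classical
  refine ⟨fun i α => ?_, fun i p hp α hα => ?_, fun i j p hp x => ?_⟩
  · have h0 : Holo (n := n) (Y.U i) fun p => ∏ α ∈ T, coeff α (F i p) ^ b α :=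
      contMDiffOn_finsetProd fun α _ => (hF.holo i α).pow _
    simp only [coeff_monomial]
    split_ifs with h
    · exact h0
    · exact contMDiffOn_const
  · rw [mem_support_iff, coeff_monomial] at hα
    have h1 : (Finsupp.equivFunOnFinite.symm γ) = α := by
      by_contra hne
      rw [if_neg hne] at hα
      exact hα rfl
    have hT' : ∀ α ∈ T, ∃ q : Fin r → ℤ, ∀ i, (α i : ℤ) = d i + ∑ l, q l * w i l := hT
    choose! q hq using hT'
    refine ⟨fun l => ∑ α ∈ T, b α * q α l, fun a => ?_⟩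
    rw [← h1]
    simp only [Finsupp.equivFunOnFinite_symm_apply_apply]
    have h2 : ((∑ α ∈ T, b α * α a : ℕ) : ℤ) = ((N * m + γ a : ℕ) : ℤ) := by rw [hb2 a]
    have h3 : ((∑ α ∈ T, b α : ℕ) : ℤ) = N := by rw [hb]
    push_cast at h2 h3
    have h4 : ∑ α ∈ T, (b α : ℤ) * (α a : ℤ) =
        (∑ α ∈ T, (b α : ℤ)) * d a + ∑ l, (∑ α ∈ T, b α * q α l) * w a l := by
      rw [Finset.sum_congr rfl fun α hα => by rw [hq α hα a, mul_add], Finset.sum_add_distrib,
        Finset.sum_mul]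
      congr 1
      simp_rw [Finset.mul_sum, Finset.sum_mul]
      rw [Finset.sum_comm]
      exact Finset.sum_congr rfl fun _ _ => Finset.sum_congr rfl fun _ _ => by ring
    rw [h4, h3] at h2
    linarith
  · have hc : ∀ α ∈ T, coeff α (F i p) * (∏ a, Y.t i j p a ^ α a) =
        e i j p * coeff α (F j p) := by
      intro α _
      have h1 := coeff_of_eval (t := Y.t i j p) (p := F i p) (q := F j p) (a := 1) (b := e i j p)
        (fun x => by rw [mul_one]; exact hF.eq i j p hp x) α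
      rwa [mul_one] at h1
    have hprod : (∏ α ∈ T, coeff α (F i p) ^ b α) *
        ∏ a, Y.t i j p a ^ (N * m + γ a) =
        e i j p ^ N * ∏ α ∈ T, coeff α (F j p) ^ b α := by
      have h2 : ∏ a, Y.t i j p a ^ (N * m + γ a) =
          ∏ α ∈ T, (∏ a, Y.t i j p a ^ α a) ^ b α := by
        simp_rw [← Finset.prod_pow]
        rw [Finset.prod_comm]
        refine Finset.prod_congr rfl fun a _ => ?_
        rw [← hb2 a, ← Finset.prod_pow_eq_pow_sum]
        exact Finset.prod_congr rfl fun α _ => by rw [← pow_mul, mul_comm]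
      rw [h2, ← Finset.prod_mul_distrib, ← hb, ← Finset.prod_pow_eq_pow_sum,
        ← Finset.prod_mul_distrib]
      exact Finset.prod_congr rfl fun α hα => by rw [← mul_pow, hc α hα, mul_pow]
    rw [eval_monomial, eval_monomial, Finsupp.prod_fintype _ _ fun i => pow_zero _,
      Finsupp.prod_fintype _ _ fun i => pow_zero _]
    simp only [Finsupp.equivFunOnFinite_symm_apply_apply, mul_pow, Finset.prod_mul_distrib]
    have h3 : (∏ a, Y.t i j p a ^ γ a) * (∏ a, Y.t i j p a) ^ (N * m) =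
        ∏ a, Y.t i j p a ^ (N * m + γ a) := by
      rw [← Finset.prod_pow, ← Finset.prod_mul_distrib]
      exact Finset.prod_congr rfl fun a _ => by rw [← pow_add, add_comm]
    calc (∏ α ∈ T, coeff α (F i p) ^ b α) * ((∏ a, Y.t i j p a ^ γ a) *
          ∏ a, x a ^ γ a) * (∏ a, Y.t i j p a) ^ (N * m)
        = ((∏ α ∈ T, coeff α (F i p) ^ b α) * ((∏ a, Y.t i j p a ^ γ a) *
          (∏ a, Y.t i j p a) ^ (N * m))) * ∏ a, x a ^ γ a := by ring
      _ = e i j p ^ N * ((∏ α ∈ T, coeff α (F j p) ^ b α) * ∏ a, x a ^ γ a) := by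
          rw [h3, hprod]; ring

/-- Global generation of `N m (K_{Y/B} + Δ)`. -/
theorem IsSimplicialFan.relative (hS : IsSimplicialFan w S) {m : ℕ} (hm : 1 ≤ m) {d : κ → ℤ}
    (hnef : IsFibreQNef w S fun a => d a - m) :
    ∃ N : ℕ, 1 ≤ N ∧ ∀ (n : ℕ) (B : Type u) [TopologicalSpace B] [ChartedSpace (Fin n → ℂ) B]
      (ι : Type v) (Y : ToricBundle n B w ι) (F : ι → B → MvPolynomial κ ℂ)
      (e : ι → ι → B → ℂ), Y.IsDivisor d F e → ∀ i, ∀ p ∈ Y.U i, IsLogCanonical S m (F i p) →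
      ∀ x : κ → ℂ, {a | x a = 0} ∈ S →
        ∃ G, Y.IsRelativeSection m d e N G ∧ eval x (G i p) ≠ 0 := by
  classical
  obtain ⟨N, hN, h⟩ := hS.uniform hnef
  refine ⟨N, hN, fun n B _ _ ι Y F e hF i p hp hlc x hx => ?_⟩
  obtain ⟨γ, b, h1, h3, h4⟩ := h (F i p).support (hF.deg i p hp)
    (fun a ha => weights_of_lc hm hlc a ha) _ hx
  refine ⟨_, section_of_comb' Y hF (F i p).support (hF.deg i p hp) b h3 h4, ?_⟩
  rw [eval_monomial, Finsupp.prod_fintype _ _ fun i => pow_zero _]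
  refine mul_ne_zero (Finset.prod_ne_zero_iff.2 fun α hα => pow_ne_zero _ (mem_support_iff.1 hα))
    (Finset.prod_ne_zero_iff.2 fun a _ => ?_)
  simp only [Finsupp.equivFunOnFinite_symm_apply_apply]
  by_cases hxa : x a = 0
  · rw [h1 a hxa, pow_zero]
    exact one_ne_zero
  · exact pow_ne_zero _ hxa

end H18.TB
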