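import Pool.Agent.H18.TB.Main
import Pool.Agent.H18.TB.Dio

/-!
# Trivial log canonical classes on toric varieties: exponents depending only on the dimension
-/

set_option autoImplicit false

namespace H18.TB

open MvPolynomial Q47.TB Module

universe u

/-- A linear function which is nonnegative on the rays of a complete fan is zero. -/
theorem eq_zero_of_nonneg {κ : Type*} [Fintype κ] {r : ℕ} {w : κ → Fin r → ℤ} {S : Set (Set κ)}
    (hS : IsSmoothFan w S) (u : Fin r → ℤ) (h : ∀ i, 0 ≤ ∑ k, u k * w i k) : u = 0 := by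
  obtain ⟨a, ⟨-, ha⟩, -⟩ := hS.rep fun k => -u k
  have h1 : ∑ k, u k * -u k = ∑ i, (a i : ℤ) * ∑ k, u k * w i k := by
    simp_rw [Finset.mul_sum]
    rw [Finset.sum_comm]
    refine Finset.sum_congr rfl fun k _ => ?_
    rw [← ha k, Finset.mul_sum]
    exact Finset.sum_congr rfl fun i _ => by ring
  have h2 : 0 ≤ ∑ k, u k * -u k := by
    rw [h1]
    exact Finset.sum_nonneg fun i _ => mul_nonneg (Int.natCast_nonneg _) (h i)
  have h3 : ∑ k, u k * u k = 0 := by
    have h4 : ∑ k, u k * -u k = -∑ k, u k * u k := by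
      rw [← Finset.sum_neg_distrib]
      exact Finset.sum_congr rfl fun k _ => by ring
    have h5 : 0 ≤ ∑ k, u k * u k := Finset.sum_nonneg fun k _ => mul_self_nonneg _
    omega
  funext k
  have h6 := (Finset.sum_eq_zero_iff_of_nonneg fun k _ => mul_self_nonneg (u k)).1 h3 k
    (Finset.mem_univ k)
  exact mul_self_eq_zero.1 h6

theorem unif (r m : ℕ) (hm : 1 ≤ m) : ∃ N : ℕ, 1 ≤ N ∧ ∀ (κ : Type u) [Fintype κ]
    (w : κ → Fin r → ℤ) (S : Set (Set κ)), IsSmoothFan w S → ∀ T : Finset (κ →₀ ℕ),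
    (∀ α ∈ T, LinEquiv w (fun i => (α i : ℤ)) fun _ => (m : ℤ)) →
    (∀ a : κ → ℕ, {i | a i ≠ 0} ∈ S → ∃ α ∈ T, ∑ i, a i * α i ≤ m * ∑ i, a i) →
    ∃ b : (κ →₀ ℕ) → ℕ, ∑ α ∈ T, b α = N ∧ ∀ i, ∑ α ∈ T, b α * α i = N * m := by
  classical
  choose C hC1 hC2 using fun k => approx k m hm
  refine ⟨∏ k ∈ Finset.range (r + 2), (C k).factorial,
    Nat.one_le_iff_ne_zero.2 (Finset.prod_ne_zero_iff.2 fun k _ => Nat.factorial_ne_zero _), ?_⟩
  intro κ _ w S hS T hT hw
  obtain ⟨N, hN⟩ : ∃ N, N = ∏ k ∈ Finset.range (r + 2), (C k).factorial := ⟨_, rfl⟩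
  rw [← hN]
  obtain ⟨b0, hb1, hb2⟩ := exists_comb hS T hT (m := m) (β := fun _ => 0) ⟨0, by simp⟩ hw
  have hq' : ∀ α ∈ T, ∃ q : Fin r → ℤ, ∀ i, (α i : ℤ) = m + ∑ k, q k * w i k := hT
  choose! q hq using hq'
  have h0 : (fun k => ∑ α ∈ T, (b0 α : ℤ) * q α k) = 0 := by
    refine eq_zero_of_nonneg hS _ fun i => le_of_eq ?_
    have h1 : ∑ k, (∑ α ∈ T, (b0 α : ℤ) * q α k) * w i k =
        ∑ α ∈ T, (b0 α : ℤ) * ((α i : ℤ) - m) := by
      simp_rw [Finset.sum_mul]
      rw [Finset.sum_comm]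
      refine Finset.sum_congr rfl fun α hα => ?_
      rw [hq α hα i, add_sub_cancel_left, Finset.mul_sum]
      exact Finset.sum_congr rfl fun k _ => by ring
    rw [h1]
    have h2 := hb2 i
    rw [add_zero] at h2
    have h3 : ∑ α ∈ T, (b0 α : ℤ) * (α i : ℤ) = (∑ α ∈ T, (b0 α : ℤ)) * m := by exact_mod_cast h2
    simp_rw [mul_sub]
    rw [Finset.sum_sub_distrib, h3, Finset.sum_mul, sub_self]
  let z : (κ →₀ ℕ) → Fin r → ℝ := fun α k => (q α k : ℝ)
  have hM : (0 : ℝ) < ∑ α ∈ T, (b0 α : ℝ) := by exact_mod_cast hb1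
  have hmem : (0 : Fin r → ℝ) ∈ convexHull ℝ (z '' (T : Set (κ →₀ ℕ))) := by
    have h1 := (convex_convexHull ℝ (z '' (T : Set (κ →₀ ℕ)))).sum_mem (t := T)
      (w := fun α => (b0 α : ℝ) / ∑ α ∈ T, (b0 α : ℝ)) (z := z)
      (fun α _ => div_nonneg (Nat.cast_nonneg _) hM.le)
      (by rw [← Finset.sum_div, div_self hM.ne'])
      (fun α hα => subset_convexHull _ _ ⟨α, hα, rfl⟩)
    have h2 : ∑ α ∈ T, ((b0 α : ℝ) / ∑ α ∈ T, (b0 α : ℝ)) • z α = 0 := by
      funext k
      rw [Finset.sum_apply, Pi.zero_apply]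
      have h3 : ∑ α ∈ T, (b0 α : ℝ) * (q α k : ℝ) = 0 := by exact_mod_cast congrFun h0 k
      have h4 : ∀ α ∈ T, (((b0 α : ℝ) / ∑ α ∈ T, (b0 α : ℝ)) • z α) k =
          ((b0 α : ℝ) * (q α k : ℝ)) / ∑ α ∈ T, (b0 α : ℝ) := fun α _ => by
        rw [Pi.smul_apply, smul_eq_mul]
        ring
      rw [Finset.sum_congr rfl h4, ← Finset.sum_div, h3, zero_div]
    rwa [h2] at h1
  obtain ⟨J, _, Z, W, hZ, hind, hW, hW1, hWZ⟩ := eq_pos_convex_span_of_mem_convexHull hmem
  have hcard : Fintype.card J < r + 2 := by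
    have h1 := hind.card_le_finrank_succ
    have h2 := Submodule.finrank_le (vectorSpan ℝ (Set.range Z))
    rw [finrank_fin_fun] at h2
    omega
  have hZ' : ∀ j, ∃ α ∈ T, z α = Z j := fun j => hZ ⟨j, rfl⟩
  choose A hA hAz using hZ'
  obtain ⟨s, hs1, hsC, n, hn1, hn2, hn3⟩ := hC2 (Fintype.card J)
    (fun i => W ((Fintype.equivFin J).symm i)) (fun i => hW _)
    (by rw [(Fintype.equivFin J).symm.sum_comp W, hW1])
  choose c hc using hn1
  obtain ⟨c', hc'⟩ : ∃ c' : J → ℤ, c' = fun j => c (Fintype.equivFin J j) := ⟨_, rfl⟩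
  have hsum : ∑ j, (m : ℤ) * c' j = s := by
    rw [← hn2, hc', ← (Fintype.equivFin J).sum_comp n]
    exact Finset.sum_congr rfl fun j _ => (hc _).symm
  have hlt : ∀ j, (m : ℝ) * (c' j : ℝ) < (s + 1) * W j := by
    intro j
    have h1 := hn3 (Fintype.equivFin J j)
    rw [hc, Equiv.symm_apply_apply] at h1
    rw [hc']
    exact_mod_cast h1
  -- the pairing
  have hpair : ∀ j i, ((A j i : ℕ) : ℝ) = m + ∑ k, Z j k * (w i k : ℝ) := by
    intro j i
    rw [← hAz j]
    change ((A j i : ℕ) : ℝ) = m + ∑ k, (q (A j) k : ℝ) * (w i k : ℝ)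
    exact_mod_cast hq (A j) (hA j) i
  have hWA : ∀ i, ∑ j, W j * ((A j i : ℕ) : ℝ) = m := by
    intro i
    have h1 : ∑ j, W j * ((A j i : ℕ) : ℝ) =
        ∑ j, W j * (m : ℝ) + ∑ k, (∑ j, W j • Z j) k * (w i k : ℝ) := by
      simp_rw [hpair, mul_add]
      rw [Finset.sum_add_distrib]
      congr 1
      simp_rw [Finset.mul_sum, Finset.sum_apply, Finset.sum_mul]
      rw [Finset.sum_comm]
      exact Finset.sum_congr rfl fun k _ => Finset.sum_congr rfl fun j _ => by
        rw [Pi.smul_apply, smul_eq_mul]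
        ring
    rw [h1, hWZ, ← Finset.sum_mul, hW1]
    simp
  have hm0 : (0 : ℝ) < m := by exact_mod_cast hm
  have hsum' : ∑ j, (m : ℝ) * (c' j : ℝ) = s := by exact_mod_cast hsum
  -- the lattice point
  have hu : (fun k => -∑ j, c' j * q (A j) k) = 0 := by
    refine eq_zero_of_nonneg hS _ fun i => ?_
    have h1 : (m : ℝ) * ∑ k, (-∑ j, (c' j : ℝ) * (q (A j) k : ℝ)) * (w i k : ℝ) =
        m * s - ∑ j, (m : ℝ) * (c' j : ℝ) * ((A j i : ℕ) : ℝ) := by
      have h2 : ∑ j, (m : ℝ) * (c' j : ℝ) * ((A j i : ℕ) : ℝ) =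
          ∑ j, (m : ℝ) * (c' j : ℝ) * m +
            m * ∑ k, (∑ j, (c' j : ℝ) * (q (A j) k : ℝ)) * (w i k : ℝ) := by
        simp_rw [hpair, mul_add]
        rw [Finset.sum_add_distrib]
        congr 1
        simp_rw [Finset.mul_sum, Finset.sum_mul, Finset.mul_sum]
        rw [Finset.sum_comm]
        exact Finset.sum_congr rfl fun k _ => Finset.sum_congr rfl fun j _ => by
          rw [← hAz j]
          ring
      rw [h2, ← Finset.sum_mul, hsum']
      simp_rw [neg_mul]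
      rw [Finset.sum_neg_distrib]
      ring
    have h3 : ∑ j, (m : ℝ) * (c' j : ℝ) * ((A j i : ℕ) : ℝ) < (s + 1) * m := by
      have h4 : ∃ j, 0 < A j i := by
        by_contra hcon
        push Not at hcon
        have h5 := hWA i
        rw [Finset.sum_eq_zero fun j _ => by
          rw [Nat.le_zero.1 (hcon j), Nat.cast_zero, mul_zero]] at h5
        exact hm0.ne h5
      obtain ⟨j₀, hj₀⟩ := h4
      have h5 : ((s : ℝ) + 1) * m = ∑ j, ((s : ℝ) + 1) * (W j * ((A j i : ℕ) : ℝ)) := by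
        rw [← Finset.mul_sum, hWA i]
      rw [h5]
      refine Finset.sum_lt_sum (fun j _ => ?_) ⟨j₀, Finset.mem_univ _, ?_⟩
      · rw [← mul_assoc]
        exact mul_le_mul_of_nonneg_right (hlt j).le (Nat.cast_nonneg _)
      · rw [← mul_assoc]
        exact mul_lt_mul_of_pos_right (hlt j₀) (by exact_mod_cast hj₀)
    have h6 : (m : ℝ) * (-1) <
        (m : ℝ) * ∑ k, (-∑ j, (c' j : ℝ) * (q (A j) k : ℝ)) * (w i k : ℝ) := by
      rw [h1]
      linarith
    have h7 := lt_of_mul_lt_mul_left h6 hm0.le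
    have h8 : (-1 : ℤ) < ∑ k, (-∑ j, c' j * q (A j) k) * w i k := by exact_mod_cast h7
    omega
  have hcq : ∀ k, ∑ j, c' j * q (A j) k = 0 := by
    intro k
    have h1 := congrFun hu k
    simpa using h1
  -- the barycentric coordinates
  have hbar : ∀ j, (s : ℝ) * W j - m * c' j = 0 := by
    have h1 := affineIndependent_iff.1 hind Finset.univ (fun j => (s : ℝ) * W j - m * c' j)
      (by rw [Finset.sum_sub_distrib, ← Finset.mul_sum, hW1, hsum', mul_one, sub_self])
      (by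
        simp_rw [sub_smul, mul_smul]
        rw [Finset.sum_sub_distrib, ← Finset.smul_sum, hWZ, ← Finset.smul_sum]
        have h2 : ∑ j, (c' j : ℝ) • Z j = 0 := by
          funext k
          rw [Finset.sum_apply, Pi.zero_apply]
          have h3 : ∑ j, (c' j : ℝ) * (q (A j) k : ℝ) = 0 := by exact_mod_cast hcq k
          rw [← h3]
          refine Finset.sum_congr rfl fun j _ => ?_
          rw [← hAz j]
          rfl
        rw [h2]
        simp)
    exact fun j => h1 j (Finset.mem_univ j)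
  have hpos : ∀ j, 0 ≤ (m : ℤ) * c' j := by
    intro j
    have h1 := hbar j
    have h2 : (0 : ℝ) < s := by exact_mod_cast hs1
    have h3 := mul_pos h2 (hW j)
    have h4 : (0 : ℝ) ≤ m * c' j := by linarith
    exact_mod_cast h4
  have hdvd : s ∣ N := by
    rw [hN]
    exact (Nat.dvd_factorial hs1 hsC).trans
      (Finset.dvd_prod_of_mem (fun k => (C k).factorial) (Finset.mem_range.2 hcard))
  obtain ⟨K, hK⟩ := hdvd
  have htn : ∀ j, (((m : ℤ) * c' j).toNat : ℤ) = m * c' j := fun j => Int.toNat_of_nonneg (hpos j)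
  refine ⟨fun α => K * ∑ j with A j = α, ((m : ℤ) * c' j).toNat, ?_, fun i => ?_⟩
  · rw [← Finset.mul_sum, Finset.sum_fiberwise_of_maps_to (fun j _ => hA j), hK, mul_comm]
    congr 1
    have h1 : (((∑ j, ((m : ℤ) * c' j).toNat : ℕ)) : ℤ) = s := by
      push_cast
      rw [← hsum]
      exact Finset.sum_congr rfl fun j _ => htn j
    exact_mod_cast h1
  · have h1 : ∀ α ∈ T, (K * ∑ j with A j = α, ((m : ℤ) * c' j).toNat) * α i =
        K * ∑ j with A j = α, ((m : ℤ) * c' j).toNat * A j i := by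
      intro α _
      rw [mul_assoc, Finset.sum_mul]
      congr 1
      refine Finset.sum_congr rfl fun j hj => ?_
      rw [(Finset.mem_filter.1 hj).2]
    rw [Finset.sum_congr rfl h1, ← Finset.mul_sum, Finset.sum_fiberwise_of_maps_to (fun j _ => hA j),
      hK, mul_comm s K, mul_assoc]
    congr 1
    have h2 : (((∑ j, ((m : ℤ) * c' j).toNat * A j i : ℕ)) : ℤ) = s * m := by
      push_cast
      have h3 : ∀ j, (((m : ℤ) * c' j).toNat : ℤ) * ((A j i : ℕ) : ℤ) =
          m * c' j * m + m * ∑ k, (c' j * q (A j) k) * w i k := by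
        intro j
        rw [htn, hq (A j) (hA j) i, mul_add]
        congr 1
        rw [Finset.mul_sum, Finset.mul_sum]
        exact Finset.sum_congr rfl fun k _ => by ring
      rw [Finset.sum_congr rfl fun j _ => h3 j, Finset.sum_add_distrib, ← Finset.sum_mul, hsum,
        ← Finset.mul_sum, Finset.sum_comm]
      have h4 : ∑ k, ∑ j, c' j * q (A j) k * w i k = 0 :=
        Finset.sum_eq_zero fun k _ => by rw [← Finset.sum_mul, hcq, zero_mul]
      rw [h4, mul_zero, add_zero]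
    exact_mod_cast h2

end H18.TB
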